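import Pool.Agent.Work.MP_6f78fb_rk.Interface

/-!
# MP_6f78fb_co, block FOPS: the algebra of the flip operators (helper23)
-/

open scoped BigOperators TensorProduct
open Classical

noncomputable section

namespace Pool.RookLC.helper23

open Pool.RookLC Finset

variable {Ω K : Type*} (S : FS Ω K)

theorem op_apply (v : ℤ × ℤ) (f : Ω → ℂ) (ω : Ω) :
    S.Op v f ω = ∑ κ ∈ (S.comps ω).filter (fun κ => S.ch κ ω = -v), f (S.fl κ ω) := rfl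

theorem sg_apply (f : Ω → ℂ) (ω : Ω) : S.sg f ω = f (S.sw ω) := rfl

theorem ne_neg {v : ℤ × ℤ} (hv : v ≠ 0) : v ≠ -v := by
  intro h
  apply hv
  have h1 := congrArg Prod.fst h
  have h2 := congrArg Prod.snd h
  simp only [Prod.fst_neg, Prod.snd_neg] at h1 h2
  apply Prod.ext
  · show v.1 = 0
    omega
  · show v.2 = 0
    omega

/-- the filtered components after a flip -/
theorem ch_fl {ω : Ω} {κ κ' : K} (hκ : κ ∈ S.comps ω) (hκ' : κ' ∈ S.comps ω) :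
    S.ch κ' (S.fl κ ω) = if κ' = κ then - S.ch κ ω else S.ch κ' ω := by
  split_ifs with h
  · rw [h]; exact S.ch_self ω κ hκ
  · exact S.ch_ne ω κ κ' hκ hκ' (fun e => h e.symm)

theorem adj [Fintype Ω] (v : ℤ × ℤ) (f g : Ω → ℂ) :
    ∑ ω, S.Op v f ω * (starRingEnd ℂ) (g ω) = ∑ ω, f ω * (starRingEnd ℂ) (S.Op (-v) g ω) := by
  have h1 : ∀ ω, S.Op v f ω * (starRingEnd ℂ) (g ω) =
      ∑ κ ∈ (S.comps ω).filter (fun κ => S.ch κ ω = -v),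
        f (S.fl κ ω) * (starRingEnd ℂ) (g ω) := by
    intro ω
    rw [op_apply, sum_mul]
  have h2 : ∀ ω, f ω * (starRingEnd ℂ) (S.Op (-v) g ω) =
      ∑ κ ∈ (S.comps ω).filter (fun κ => S.ch κ ω = - -v),
        f ω * (starRingEnd ℂ) (g (S.fl κ ω)) := by
    intro ω
    rw [op_apply, map_sum, mul_sum]
  rw [sum_congr rfl fun ω _ => h1 ω, sum_congr rfl fun ω _ => h2 ω, sum_sigma', sum_sigma']
  have key : ∀ (w : ℤ × ℤ) (a : (_ : Ω) × K),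
      a ∈ univ.sigma (fun ω => (S.comps ω).filter (fun κ => S.ch κ ω = -w)) →
      (⟨S.fl a.2 a.1, a.2⟩ : (_ : Ω) × K) ∈
        univ.sigma (fun ω => (S.comps ω).filter (fun κ => S.ch κ ω = w)) := by
    intro w a ha
    obtain ⟨_, h3⟩ := mem_sigma.1 ha
    obtain ⟨h4, h5⟩ := mem_filter.1 h3
    refine mem_sigma.2 ⟨mem_univ _, mem_filter.2 ⟨?_, ?_⟩⟩
    · show a.2 ∈ S.comps (S.fl a.2 a.1)
      rw [S.comps_fl _ _ h4]
      exact h4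
    · show S.ch a.2 (S.fl a.2 a.1) = w
      rw [S.ch_self _ _ h4, h5, neg_neg]
  refine sum_nbij' (fun a => ⟨S.fl a.2 a.1, a.2⟩) (fun a => ⟨S.fl a.2 a.1, a.2⟩) ?_ ?_ ?_ ?_ ?_
  · intro a ha
    have h3 := key v a ha
    rw [neg_neg]
    exact h3
  · intro a ha
    exact key (-v) a ha
  · rintro ⟨ω, κ⟩ _
    show (⟨S.fl κ (S.fl κ ω), κ⟩ : (_ : Ω) × K) = ⟨ω, κ⟩
    rw [S.fl_fl]
  · rintro ⟨ω, κ⟩ _
    show (⟨S.fl κ (S.fl κ ω), κ⟩ : (_ : Ω) × K) = ⟨ω, κ⟩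
    rw [S.fl_fl]
  · rintro ⟨ω, κ⟩ _
    show f (S.fl κ ω) * (starRingEnd ℂ) (g ω) =
      f (S.fl κ ω) * (starRingEnd ℂ) (g (S.fl κ (S.fl κ ω)))
    rw [S.fl_fl]

/-- the value of `Op w f` after a flip -/
theorem op_fl (w : ℤ × ℤ) (f : Ω → ℂ) {ω : Ω} {κ : K} (hκ : κ ∈ S.comps ω) :
    S.Op w f (S.fl κ ω) = (if S.ch κ ω = w then f ω else 0) +
      ∑ κ' ∈ S.comps ω, if κ' ≠ κ ∧ S.ch κ' ω = -w then f (S.fl κ' (S.fl κ ω)) else 0 := by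
  rw [op_apply, S.comps_fl _ _ hκ, sum_filter, ← add_sum_erase _ _ hκ,
    ← add_sum_erase (S.comps ω) (fun κ' => if κ' ≠ κ ∧ S.ch κ' ω = -w then
      f (S.fl κ' (S.fl κ ω)) else 0) hκ]
  have h0 : (if κ ≠ κ ∧ S.ch κ ω = -w then f (S.fl κ (S.fl κ ω)) else 0) = 0 :=
    if_neg fun h => h.1 rfl
  rw [h0, zero_add, S.ch_self _ _ hκ, S.fl_fl]
  congr 1
  · by_cases h : S.ch κ ω = w
    · rw [if_pos h, if_pos (by rw [h])]
    · rw [if_neg h, if_neg (fun h' => h (neg_injective h'))]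
  · refine sum_congr rfl fun κ' hκ' => ?_
    obtain ⟨h1, h2⟩ := mem_erase.1 hκ'
    rw [S.ch_ne ω κ κ' hκ h2 (fun e => h1 e.symm)]
    by_cases h : S.ch κ' ω = -w
    · rw [if_pos h, if_pos ⟨h1, h⟩]
    · rw [if_neg h, if_neg fun h' => h h'.2]

/-- two operators -/
theorem op_op (v w : ℤ × ℤ) (f : Ω → ℂ) (ω : Ω) :
    S.Op v (S.Op w f) ω = (if w = -v then (S.Nn (-v) ω : ℂ) * f ω else 0) +
      ∑ κ ∈ S.comps ω, ∑ κ' ∈ S.comps ω,
        if S.ch κ ω = -v ∧ κ' ≠ κ ∧ S.ch κ' ω = -w then f (S.fl κ' (S.fl κ ω)) else 0 := by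
  rw [op_apply]
  have h1 : ∀ κ ∈ (S.comps ω).filter (fun κ => S.ch κ ω = -v), S.Op w f (S.fl κ ω) =
      (if w = -v then f ω else 0) + ∑ κ' ∈ S.comps ω,
        if κ' ≠ κ ∧ S.ch κ' ω = -w then f (S.fl κ' (S.fl κ ω)) else 0 := by
    intro κ hκ
    obtain ⟨h2, h3⟩ := mem_filter.1 hκ
    rw [op_fl S w f h2, h3]
    congr 1
    by_cases h : w = -v
    · rw [if_pos h, if_pos h.symm]
    · rw [if_neg h, if_neg fun h' => h h'.symm]
  rw [sum_congr rfl h1, sum_add_distrib, sum_const, nsmul_eq_mul]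
  congr 1
  · split_ifs
    · unfold FS.Nn
      push_cast
      rfl
    · rw [mul_zero]
  · rw [sum_filter]
    refine sum_congr rfl fun κ _ => ?_
    by_cases h : S.ch κ ω = -v
    · rw [if_pos h]
      refine sum_congr rfl fun κ' _ => ?_
      by_cases h' : κ' ≠ κ ∧ S.ch κ' ω = -w
      · rw [if_pos h', if_pos ⟨h, h'⟩]
      · rw [if_neg h', if_neg fun h'' => h' h''.2]
    · rw [if_neg h]
      symm
      exact sum_eq_zero fun κ' _ => if_neg fun h'' => h h''.1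

/-- the double sums are symmetric -/
theorem dbl_symm (v w : ℤ × ℤ) (f : Ω → ℂ) (ω : Ω) :
    (∑ κ ∈ S.comps ω, ∑ κ' ∈ S.comps ω,
        if S.ch κ ω = -v ∧ κ' ≠ κ ∧ S.ch κ' ω = -w then f (S.fl κ' (S.fl κ ω)) else 0) =
      ∑ κ ∈ S.comps ω, ∑ κ' ∈ S.comps ω,
        if S.ch κ ω = -w ∧ κ' ≠ κ ∧ S.ch κ' ω = -v then f (S.fl κ' (S.fl κ ω)) else 0 := by
  rw [sum_comm]
  refine sum_congr rfl fun κ _ => sum_congr rfl fun κ' _ => ?_
  by_cases h : S.ch κ' ω = -v ∧ κ ≠ κ' ∧ S.ch κ ω = -w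
  · rw [if_pos h, if_pos ⟨h.2.2, h.2.1.symm, h.1⟩, S.comm]
  · rw [if_neg h, if_neg fun h' => h ⟨h'.2.2, h'.2.1.symm, h'.1⟩]

theorem commutator (v : ℤ × ℤ) (f : Ω → ℂ) (ω : Ω) :
    S.Op (-v) (S.Op v f) ω = S.Op v (S.Op (-v) f) ω + (S.Hh v ω : ℂ) * f ω := by
  rw [op_op, op_op, if_pos (neg_neg v).symm, if_pos rfl, dbl_symm S v (-v), neg_neg]
  unfold FS.Hh
  push_cast
  ring

theorem commute {v w : ℤ × ℤ} (hvw : v ≠ -w) (f : Ω → ℂ) :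
    S.Op v (S.Op w f) = S.Op w (S.Op v f) := by
  funext ω
  rw [op_op, op_op, if_neg (fun h => hvw (by rw [h, neg_neg])), if_neg hvw, dbl_symm S v w]

theorem sg_op (v : ℤ × ℤ) (f : Ω → ℂ) : S.sg (S.Op v f) = S.Op (-v) (S.sg f) := by
  funext ω
  rw [sg_apply, op_apply, op_apply, S.comps_sw, neg_neg]
  have h1 : (S.comps ω).filter (fun κ => S.ch κ (S.sw ω) = -v) =
      (S.comps ω).filter (fun κ => S.ch κ ω = v) := by
    refine filter_congr fun κ _ => ?_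
    rw [S.ch_sw]
    exact neg_inj
  rw [h1]
  refine sum_congr rfl fun κ _ => ?_
  rw [S.fl_sw, sg_apply]

theorem hh_eq (v : ℤ × ℤ) (ω : Ω) : S.Hh v ω = ∑ κ ∈ S.comps ω,
    ((if S.ch κ ω = v then (1 : ℤ) else 0) - if S.ch κ ω = -v then 1 else 0) := by
  unfold FS.Hh FS.Nn
  rw [sum_sub_distrib, card_filter, card_filter]
  push_cast
  rfl

theorem tot_fl {v : ℤ × ℤ} {ω : Ω} {κ : K} (hκ : κ ∈ S.comps ω) (hv : S.ch κ ω = -v) :
    S.Tot (S.fl κ ω) = S.Tot ω + 2 • v := by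
  unfold FS.Tot
  rw [S.comps_fl _ _ hκ, ← add_sum_erase _ _ hκ, ← add_sum_erase (S.comps ω) _ hκ,
    S.ch_self _ _ hκ, hv]
  have h1 : ∑ κ' ∈ (S.comps ω).erase κ, S.ch κ' (S.fl κ ω) =
      ∑ κ' ∈ (S.comps ω).erase κ, S.ch κ' ω := by
    refine sum_congr rfl fun κ' hκ' => ?_
    obtain ⟨h2, h3⟩ := mem_erase.1 hκ'
    exact S.ch_ne ω κ κ' hκ h3 (fun e => h2 e.symm)
  rw [h1, neg_neg, two_smul]
  abel

theorem hh_fl {w : ℤ × ℤ} {ω : Ω} {κ : K} (hκ : κ ∈ S.comps ω) :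
    S.Hh w (S.fl κ ω) = S.Hh w ω +
      2 * ((if S.ch κ ω = -w then 1 else 0) - if S.ch κ ω = w then 1 else 0) := by
  rw [hh_eq, hh_eq, S.comps_fl _ _ hκ, ← add_sum_erase _ _ hκ, ← add_sum_erase (S.comps ω) _ hκ,
    S.ch_self _ _ hκ]
  have h1 : ∑ κ' ∈ (S.comps ω).erase κ, ((if S.ch κ' (S.fl κ ω) = w then (1 : ℤ) else 0) -
      if S.ch κ' (S.fl κ ω) = -w then 1 else 0) =
      ∑ κ' ∈ (S.comps ω).erase κ, ((if S.ch κ' ω = w then (1 : ℤ) else 0) -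
      if S.ch κ' ω = -w then 1 else 0) := by
    refine sum_congr rfl fun κ' hκ' => ?_
    obtain ⟨h2, h3⟩ := mem_erase.1 hκ'
    rw [S.ch_ne ω κ κ' hκ h3 (fun e => h2 e.symm)]
  have e1 : (-S.ch κ ω = w) = (S.ch κ ω = -w) := by
    apply propext
    exact neg_eq_iff_eq_neg
  have e2 : (-S.ch κ ω = -w) = (S.ch κ ω = w) := by
    apply propext
    exact neg_inj
  rw [h1, if_congr (iff_of_eq e1) rfl rfl, if_congr (iff_of_eq e2) rfl rfl]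
  ring

theorem tot_sw (ω : Ω) : S.Tot (S.sw ω) = - S.Tot ω := by
  unfold FS.Tot
  rw [S.comps_sw, ← sum_neg_distrib]
  exact sum_congr rfl fun κ _ => S.ch_sw ω κ

theorem hh_sw (v : ℤ × ℤ) (ω : Ω) : S.Hh v (S.sw ω) = - S.Hh v ω := by
  rw [hh_eq, hh_eq, S.comps_sw, ← sum_neg_distrib]
  refine sum_congr rfl fun κ _ => ?_
  rw [S.ch_sw]
  have e1 : (-S.ch κ ω = v) = (S.ch κ ω = -v) := by
    apply propext
    exact neg_eq_iff_eq_neg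
  have e2 : (-S.ch κ ω = -v) = (S.ch κ ω = v) := by
    apply propext
    exact neg_inj
  rw [if_congr (iff_of_eq e1) rfl rfl, if_congr (iff_of_eq e2) rfl rfl]
  ring

theorem norm_id [Fintype Ω] (v : ℤ × ℤ) (f : Ω → ℂ) :
    ∑ ω, ‖S.Op v f ω‖ ^ 2 = ∑ ω, ‖S.Op (-v) f ω‖ ^ 2 + ∑ ω, (S.Hh v ω : ℝ) * ‖f ω‖ ^ 2 := by
  have h1 : ∑ ω, S.Op v f ω * (starRingEnd ℂ) (S.Op v f ω) =
      ∑ ω, S.Op (-v) f ω * (starRingEnd ℂ) (S.Op (-v) f ω) +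
        ∑ ω, (S.Hh v ω : ℂ) * (f ω * (starRingEnd ℂ) (f ω)) := by
    rw [adj, adj S (-v) f (S.Op (-v) f), neg_neg, ← sum_add_distrib]
    refine sum_congr rfl fun ω _ => ?_
    rw [commutator S v, map_add, map_mul, map_intCast (starRingEnd ℂ)]
    ring
  have h2 : ∀ z : ℂ, z * (starRingEnd ℂ) z = ((‖z‖ ^ 2 : ℝ) : ℂ) := by
    intro z
    rw [Complex.mul_conj']
    push_cast
    rfl
  have h3 : ((∑ ω, ‖S.Op v f ω‖ ^ 2 : ℝ) : ℂ) =
      ((∑ ω, ‖S.Op (-v) f ω‖ ^ 2 + ∑ ω, (S.Hh v ω : ℝ) * ‖f ω‖ ^ 2 : ℝ) : ℂ) := by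
    simp only [h2] at h1
    push_cast
    push_cast at h1
    exact h1
  exact Complex.ofReal_injective h3

theorem tot_ch7 (h7 : S.CH7) (ω : Ω) :
    S.Tot ω = (S.Hh (1, 0) ω + S.Hh (1, 1) ω, S.Hh (0, 1) ω + S.Hh (1, 1) ω) := by
  rw [hh_eq, hh_eq, hh_eq, ← sum_add_distrib, ← sum_add_distrib]
  unfold FS.Tot
  apply Prod.ext
  · rw [Prod.fst_sum]
    refine sum_congr rfl fun κ hκ => ?_
    rcases h7 ω κ hκ with h | h | h | h | h | h | h <;> rw [h] <;> decide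
  · rw [Prod.snd_sum]
    refine sum_congr rfl fun κ hκ => ?_
    rcases h7 ω κ hκ with h | h | h | h | h | h | h <;> rw [h] <;> decide

theorem stmt_FOPS : Stmt_FOPS := by
  intro Ω K _ S
  refine ⟨fun v f g => adj S v f g, fun v f _ ω => commutator S v f ω,
    fun v w f _ _ hvw => commute S hvw f, fun v f => sg_op S v f, ?_, fun ω => tot_sw S ω,
    fun v ω => hh_sw S v ω, fun v f _ => norm_id S v f, fun h7 ω => tot_ch7 S h7 ω⟩
  intro v ω κ hv hκ hch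
  have hne := ne_neg hv
  refine ⟨tot_fl S hκ hch, ?_, ?_⟩
  · rw [hh_fl S hκ, if_pos hch, if_neg (fun h => hne (h.symm.trans hch))]
    ring
  · intro w hw hw'
    rw [hh_fl S hκ, if_neg (fun h => hw (neg_injective (h.symm.trans hch))),
      if_neg (fun h => hw' (h.symm.trans hch))]
    ring

end Pool.RookLC.helper23
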