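import Pool.Agent.Work.MP_6f78fb_rk_helper23.FOPS

/-!
# MP_6f78fb_co, block HL: hard Lefschetz type injectivity (helper23)
-/

open scoped BigOperators TensorProduct
open Classical

noncomputable section

namespace Pool.RookLC.helper23

open Pool.RookLC Finset

variable {Ω K : Type*} (S : FS Ω K)

/-- Hermitian product -/
def ip [Fintype Ω] (x y : Ω → ℂ) : ℂ := ∑ ω, x ω * (starRingEnd ℂ) (y ω)

theorem ip_self [Fintype Ω] (x : Ω → ℂ) : ip x x = ((∑ ω, ‖x ω‖ ^ 2 : ℝ) : ℂ) := by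
  unfold ip
  push_cast
  exact sum_congr rfl fun ω _ => Complex.mul_conj' _

theorem ip_self_re [Fintype Ω] (x : Ω → ℂ) : (ip x x).re = ∑ ω, ‖x ω‖ ^ 2 := by
  rw [ip_self, Complex.ofReal_re]

theorem ip_self_nonneg [Fintype Ω] (x : Ω → ℂ) : 0 ≤ (ip x x).re := by
  rw [ip_self_re]
  exact sum_nonneg fun _ _ => sq_nonneg _

theorem eq_zero_of_ip [Fintype Ω] {x : Ω → ℂ} (h : (ip x x).re ≤ 0) : x = 0 := by
  rw [ip_self_re] at h
  have h1 : ∑ ω, ‖x ω‖ ^ 2 = 0 := le_antisymm h (sum_nonneg fun _ _ => sq_nonneg _)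
  rw [sum_eq_zero_iff_of_nonneg fun _ _ => sq_nonneg _] at h1
  funext ω
  have h2 := h1 ω (mem_univ ω)
  rwa [sq_eq_zero_iff, norm_eq_zero] at h2

theorem ip_add_right [Fintype Ω] (x y z : Ω → ℂ) : ip x (y + z) = ip x y + ip x z := by
  unfold ip
  rw [← sum_add_distrib]
  exact sum_congr rfl fun ω _ => by rw [Pi.add_apply, map_add, mul_add]

theorem ip_add_left [Fintype Ω] (x y z : Ω → ℂ) : ip (x + y) z = ip x z + ip y z := by
  unfold ip
  rw [← sum_add_distrib]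
  exact sum_congr rfl fun ω _ => by rw [Pi.add_apply, add_mul]

theorem ip_smul_right [Fintype Ω] (c : ℤ) (x y : Ω → ℂ) :
    ip x ((c : ℂ) • y) = (c : ℂ) * ip x y := by
  unfold ip
  rw [mul_sum]
  refine sum_congr rfl fun ω _ => ?_
  rw [Pi.smul_apply, smul_eq_mul, map_mul, map_intCast (starRingEnd ℂ)]
  ring

theorem ip_smul_left [Fintype Ω] (c : ℤ) (x y : Ω → ℂ) :
    ip ((c : ℂ) • x) y = (c : ℂ) * ip x y := by
  unfold ip
  rw [mul_sum]
  refine sum_congr rfl fun ω _ => ?_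
  rw [Pi.smul_apply, smul_eq_mul]
  ring

theorem ip_adj [Fintype Ω] (v : ℤ × ℤ) (x y : Ω → ℂ) : ip (S.Op v x) y = ip x (S.Op (-v) y) :=
  adj S v x y

/-- weight `q` for `v` -/
def Wt (v : ℤ × ℤ) (q : ℤ) (f : Ω → ℂ) : Prop := ∀ ω, f ω ≠ 0 → S.Hh v ω = q

theorem wt_op {v : ℤ × ℤ} (hv : v ≠ 0) {q : ℤ} {f : Ω → ℂ} (hf : Wt S v q f) :
    Wt S v (q - 2) (S.Op v f) := by
  intro ω hω
  rw [op_apply] at hω
  obtain ⟨κ, hκ, h1⟩ := exists_ne_zero_of_sum_ne_zero hω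
  obtain ⟨h2, h3⟩ := mem_filter.1 hκ
  have h4 := hf _ h1
  rw [hh_fl S h2, if_pos h3, if_neg (fun h => ne_neg hv (h.symm.trans h3))] at h4
  omega

theorem wt_pow {v : ℤ × ℤ} (hv : v ≠ 0) {q : ℤ} {f : Ω → ℂ} (hf : Wt S v q f) (j : ℕ) :
    Wt S v (q - 2 * j) (((S.Op v) ^ j) f) := by
  induction j with
  | zero => simpa using hf
  | succ j ih =>
    rw [pow_succ', Module.End.mul_apply]
    have h1 := wt_op S hv ih
    have e : q - 2 * ((j + 1 : ℕ) : ℤ) = q - 2 * (j : ℤ) - 2 := by push_cast; ring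
    rw [e]
    exact h1

theorem hh_mul {v : ℤ × ℤ} {q : ℤ} {f : Ω → ℂ} (hf : Wt S v q f) (ω : Ω) :
    (S.Hh v ω : ℂ) * f ω = (q : ℂ) * f ω := by
  by_cases h : f ω = 0
  · rw [h, mul_zero, mul_zero]
  · rw [hf ω h]

/-- `E F^(j+1) f = F^(j+1) E f + (j+1)(p-j) F^j f` -/
theorem comm_pow {v : ℤ × ℤ} (hv : v ≠ 0) {p : ℤ} {f : Ω → ℂ} (hf : Wt S v p f) (j : ℕ) :
    S.Op (-v) (((S.Op v) ^ (j + 1)) f) = ((S.Op v) ^ (j + 1)) (S.Op (-v) f) +
      ((((j : ℤ) + 1) * (p - j) : ℤ) : ℂ) • ((S.Op v) ^ j) f := by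
  induction j with
  | zero =>
    funext ω
    rw [zero_add, pow_one, pow_zero, commutator, hh_mul S hf]
    simp
  | succ j ih =>
    have e1 : ((S.Op v) ^ (j + 1 + 1)) f = S.Op v (((S.Op v) ^ (j + 1)) f) := by
      rw [pow_succ', Module.End.mul_apply]
    have h1 : S.Op (-v) (S.Op v (((S.Op v) ^ (j + 1)) f)) =
        S.Op v (S.Op (-v) (((S.Op v) ^ (j + 1)) f)) +
          ((p - 2 * ((j + 1 : ℕ) : ℤ) : ℤ) : ℂ) • ((S.Op v) ^ (j + 1)) f := by
      funext ω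
      rw [commutator, hh_mul S (wt_pow S hv hf (j + 1)), Pi.add_apply, Pi.smul_apply, smul_eq_mul]
    have e2 : ((S.Op v) ^ (j + 1 + 1)) (S.Op (-v) f) =
        S.Op v (((S.Op v) ^ (j + 1)) (S.Op (-v) f)) := by
      rw [pow_succ', Module.End.mul_apply]
    have e3 : S.Op v (((S.Op v) ^ j) f) = ((S.Op v) ^ (j + 1)) f := by
      rw [pow_succ', Module.End.mul_apply]
    rw [e1, h1, ih, map_add, map_smul, e2, e3, add_assoc, ← add_smul]
    congr 2
    push_cast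
    ring

theorem a_nonneg [Fintype Ω] {v : ℤ × ℤ} (hv : v ≠ 0) {p : ℤ} {f : Ω → ℂ} (hf : Wt S v p f)
    (j : ℕ) (hj : (j : ℤ) ≤ p + 1) :
    0 ≤ (ip (((S.Op v) ^ (j + 1)) (S.Op (-v) f)) (((S.Op v) ^ j) f)).re := by
  induction j with
  | zero =>
    rw [zero_add, pow_one, pow_zero, Module.End.one_apply, ip_adj]
    exact ip_self_nonneg _
  | succ j ih =>
    have e2 : ((S.Op v) ^ (j + 1 + 1)) (S.Op (-v) f) =
        S.Op v (((S.Op v) ^ (j + 1)) (S.Op (-v) f)) := by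
      rw [pow_succ', Module.End.mul_apply]
    rw [e2, ip_adj, comm_pow S hv hf j, ip_add_right, ip_smul_right, Complex.add_re]
    have h1 := ih (by push_cast at hj; omega)
    have h2 : (((((j : ℤ) + 1) * (p - j) : ℤ) : ℂ) * ip (((S.Op v) ^ (j + 1)) (S.Op (-v) f))
        (((S.Op v) ^ j) f)).re = ((((j : ℤ) + 1) * (p - j) : ℤ) : ℝ) *
        (ip (((S.Op v) ^ (j + 1)) (S.Op (-v) f)) (((S.Op v) ^ j) f)).re := by
      rw [← Complex.ofReal_intCast, Complex.re_ofReal_mul]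
    rw [h2]
    have h3 : (0 : ℝ) ≤ ((((j : ℤ) + 1) * (p - j) : ℤ) : ℝ) := by
      have : (0 : ℤ) ≤ ((j : ℤ) + 1) * (p - j) :=
        mul_nonneg (by omega) (by push_cast at hj; omega)
      exact_mod_cast this
    exact add_nonneg (ip_self_nonneg _) (mul_nonneg h3 h1)

theorem pow_inj [Fintype Ω] {v : ℤ × ℤ} (hv : v ≠ 0) {p : ℤ} {f : Ω → ℂ} (hf : Wt S v p f)
    (k : ℕ) (hk : (k : ℤ) ≤ p) (h : ((S.Op v) ^ k) f = 0) : f = 0 := by
  induction k with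
  | zero => simpa using h
  | succ k ih =>
    apply ih (by push_cast at hk; omega)
    have h1 := comm_pow S hv hf k
    rw [h, map_zero] at h1
    have h2 : (ip (0 : Ω → ℂ) (((S.Op v) ^ k) f)).re =
        (ip (((S.Op v) ^ (k + 1)) (S.Op (-v) f)) (((S.Op v) ^ k) f)).re +
        ((((k : ℤ) + 1) * (p - k) : ℤ) : ℝ) * (ip (((S.Op v) ^ k) f) (((S.Op v) ^ k) f)).re := by
      conv_lhs => rw [h1]
      rw [ip_add_left, ip_smul_left, Complex.add_re, ← Complex.ofReal_intCast,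
        Complex.re_ofReal_mul]
    have h3 : (ip (0 : Ω → ℂ) (((S.Op v) ^ k) f)).re = 0 := by
      unfold ip
      simp
    rw [h3] at h2
    have h4 := a_nonneg S hv hf k (by push_cast at hk; omega)
    have h5 : (1 : ℝ) ≤ ((((k : ℤ) + 1) * (p - k) : ℤ) : ℝ) := by
      have h6 : (1 : ℤ) ≤ ((k : ℤ) + 1) * (p - k) := by
        push_cast at hk
        nlinarith
      exact_mod_cast h6
    apply eq_zero_of_ip
    have h7 := ip_self_nonneg (((S.Op v) ^ k) f)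
    nlinarith

theorem stmt_HL : Stmt_HL := by
  intro Ω K _ S v p k hv hk f hf h
  exact pow_inj S hv hf k hk h

end Pool.RookLC.helper23
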